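import Mathlib
import Pool.Agent.K4H34.AL.Comb2

/-!
# Weighted sums over prime powers as inductive invariants
-/

set_option autoImplicit false
set_option linter.unusedSectionVars false

namespace Pool.Agent.J4.H58.DEL

open NumberField Ideal Pool.Agent.K4H74.ST Pool.Agent.K4H74.SC IsDedekindDomain

/-- the weights for which the sums converge: `ω(q) = O(q^(-1-δ))` for the prime powers `q` -/
def Adm (ω : ℕ → ℂ) : Prop :=
  ∃ C δ : ℝ, 0 < δ ∧ ∀ q : ℕ, IsPrimePow q → ‖ω q‖ ≤ C * (q : ℝ) ^ (-(1 + δ))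

section defs

variable (K L : Type) [Field K] [NumberField K] [Field L] [NumberField L] [Algebra K L]

/-- the term which belongs to the power `p ^ n` of the prime `p` -/
noncomputable def wTerm (χ : (L ≃ₐ[K] L) → ℂ) (ω : ℕ → ℂ) (x : HeightOneSpectrum (𝓞 K) × ℕ+) : ℂ :=
  ω (absNorm x.1.asIdeal ^ (x.2 : ℕ)) * Pool.Agent.K4H74.SC.frobMean K L χ x.1.asIdeal x.2 / (x.2 : ℕ)

end defs

lemma isPrimePow_absNorm {K : Type} [Field K] [NumberField K] (p : HeightOneSpectrum (𝓞 K)) {n : ℕ}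
    (hn : 0 < n) : IsPrimePow (absNorm p.asIdeal ^ n) := by
  have hp := p.isPrime
  have hmax : p.asIdeal.IsMaximal := p.isMaximal
  letI : Field (𝓞 K ⧸ p.asIdeal) := Ideal.Quotient.field _
  have hfin : Finite (𝓞 K ⧸ p.asIdeal) := Ideal.finiteQuotientOfFreeOfNeBot _ p.ne_bot
  letI : Fintype (𝓞 K ⧸ p.asIdeal) := Fintype.ofFinite _
  have h1 : IsPrimePow (Fintype.card (𝓞 K ⧸ p.asIdeal)) := FiniteField.isPrimePow_card _
  have h2 : absNorm p.asIdeal = Fintype.card (𝓞 K ⧸ p.asIdeal) := by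
    rw [Ideal.absNorm_apply, Submodule.cardQuot_apply, Nat.card_eq_fintype_card]
  rw [h2]
  exact h1.pow hn.ne'

section basic

variable {K L : Type} [Field K] [NumberField K] [Field L] [NumberField L] [Algebra K L]

lemma hasSum_wadd {χ χ' : (L ≃ₐ[K] L) → ℂ} {ω : ℕ → ℂ} {l l' : ℂ}
    (h : HasSum (wTerm K L χ ω) l) (h' : HasSum (wTerm K L χ' ω) l') :
    HasSum (wTerm K L (χ + χ') ω) (l + l') := by
  have h1 := h.add h'
  have h2 : (fun x => wTerm K L χ ω x + wTerm K L χ' ω x) = wTerm K L (χ + χ') ω := by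
    funext x
    have := x.1.isPrime
    rw [wTerm, wTerm, wTerm, frobMean_add χ χ' x.1.ne_bot, mul_add, add_div]
  rwa [h2] at h1

/-- **convergence** -/
theorem wTerm_summable (χ : (L ≃ₐ[K] L) → ℂ) {ω : ℕ → ℂ} (hω : Adm ω) :
    Summable (wTerm K L χ ω) := by
  obtain ⟨C, δ, hδ, hb⟩ := hω
  obtain ⟨B, hB, hχ⟩ := frobMean_bound χ
  obtain ⟨C', hC', hC2⟩ : ∃ C' : ℝ, 0 ≤ C' ∧ C ≤ C' := ⟨max C 0, le_max_right _ _, le_max_left _ _⟩
  have h1 : Summable (fun q : HeightOneSpectrum (𝓞 K) =>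
      ((absNorm q.asIdeal : ℕ) : ℝ) ^ (-(1 + δ))) := summable_absNorm (by linarith)
  have hgeo : Summable (fun n : ℕ+ => ((1 / 2 : ℝ)) ^ (((n : ℕ+) : ℕ) - 1)) := by
    have h2 : Summable (fun n : ℕ => ((1 / 2 : ℝ)) ^ n) :=
      summable_geometric_of_lt_one (by norm_num) (by norm_num)
    have h3 : Function.Injective (fun n : ℕ+ => ((n : ℕ) - 1)) := by
      intro a b hab
      apply PNat.eq
      have := a.pos
      have := b.pos
      simp only at hab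
      omega
    exact h2.comp_injective h3
  have h4 := h1.mul_of_nonneg hgeo (fun q => Real.rpow_nonneg (Nat.cast_nonneg _) _)
    (fun n => pow_nonneg (by norm_num) _)
  refine Summable.of_norm_bounded (h4.mul_left (C' * B)) fun x => ?_
  obtain ⟨q, n⟩ := x
  have hN : (2 : ℝ) ≤ (absNorm q.asIdeal : ℕ) := by exact_mod_cast two_le_absNorm q
  have hN0 : (0 : ℝ) < (absNorm q.asIdeal : ℕ) := by linarith
  have hn1 : (1 : ℝ) ≤ (n : ℕ) := by exact_mod_cast n.pos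
  rw [wTerm, norm_div, norm_mul, Complex.norm_natCast]
  have h5 : ‖ω (absNorm q.asIdeal ^ (n : ℕ))‖
      ≤ C' * ((absNorm q.asIdeal : ℕ) : ℝ) ^ (-((n : ℕ) * (1 + δ))) := by
    refine (hb _ (isPrimePow_absNorm q n.pos)).trans ?_
    have h6 : (((absNorm q.asIdeal ^ (n : ℕ) : ℕ)) : ℝ) ^ (-(1 + δ))
        = ((absNorm q.asIdeal : ℕ) : ℝ) ^ (-((n : ℕ) * (1 + δ))) := by
      rw [Nat.cast_pow, ← Real.rpow_natCast, ← Real.rpow_mul hN0.le]
      congr 1
      ring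
    rw [h6]
    exact mul_le_mul_of_nonneg_right hC2 (Real.rpow_nonneg hN0.le _)
  have h9 : ‖ω (absNorm q.asIdeal ^ (n : ℕ))‖ * ‖Pool.Agent.K4H74.SC.frobMean K L χ q.asIdeal n‖ / (n : ℕ)
      ≤ (C' * B) * ((absNorm q.asIdeal : ℕ) : ℝ) ^ (-((n : ℕ) * (1 + δ))) := by
    calc ‖ω (absNorm q.asIdeal ^ (n : ℕ))‖ * ‖Pool.Agent.K4H74.SC.frobMean K L χ q.asIdeal n‖ / (n : ℕ)
        ≤ ‖ω (absNorm q.asIdeal ^ (n : ℕ))‖ * ‖Pool.Agent.K4H74.SC.frobMean K L χ q.asIdeal n‖ :=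
          div_le_self (mul_nonneg (norm_nonneg _) (norm_nonneg _)) hn1
      _ ≤ (C' * ((absNorm q.asIdeal : ℕ) : ℝ) ^ (-((n : ℕ) * (1 + δ)))) * B :=
          mul_le_mul h5 (hχ q n) (norm_nonneg _) (mul_nonneg hC' (Real.rpow_nonneg hN0.le _))
      _ = _ := by ring
  refine h9.trans ?_
  refine mul_le_mul_of_nonneg_left ?_ (mul_nonneg hC' hB)
  have h10 : ((absNorm q.asIdeal : ℕ) : ℝ) ^ (-((n : ℕ) * (1 + δ)))
      = ((absNorm q.asIdeal : ℕ) : ℝ) ^ (-(1 + δ))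
        * ((absNorm q.asIdeal : ℕ) : ℝ) ^ (-((((n : ℕ) - 1 : ℕ) : ℝ) * (1 + δ))) := by
    rw [← Real.rpow_add hN0]
    congr 1
    have h11 : (((n : ℕ) - 1 : ℕ) : ℝ) = (n : ℕ) - 1 := by
      rw [Nat.cast_sub n.pos, Nat.cast_one]
    rw [h11]
    ring
  change ((absNorm q.asIdeal : ℕ) : ℝ) ^ (-((n : ℕ) * (1 + δ)))
    ≤ ((absNorm q.asIdeal : ℕ) : ℝ) ^ (-(1 + δ)) * (1 / 2) ^ ((n : ℕ) - 1)
  rw [h10]
  refine mul_le_mul_of_nonneg_left ?_ (Real.rpow_nonneg hN0.le _)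
  calc ((absNorm q.asIdeal : ℕ) : ℝ) ^ (-((((n : ℕ) - 1 : ℕ) : ℝ) * (1 + δ)))
      ≤ (2 : ℝ) ^ (-((((n : ℕ) - 1 : ℕ) : ℝ) * (1 + δ))) := by
        refine Real.rpow_le_rpow_of_nonpos (by norm_num) hN ?_
        have h12 : (0 : ℝ) ≤ (((n : ℕ) - 1 : ℕ) : ℝ) := Nat.cast_nonneg _
        nlinarith
    _ ≤ (2 : ℝ) ^ (-(((n : ℕ) - 1 : ℕ) : ℝ)) := by
        refine Real.rpow_le_rpow_of_exponent_le (by norm_num) ?_
        have h12 : (0 : ℝ) ≤ (((n : ℕ) - 1 : ℕ) : ℝ) := Nat.cast_nonneg _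
        nlinarith
    _ = (1 / 2) ^ ((n : ℕ) - 1) := by
        rw [Real.rpow_neg (by norm_num), Real.rpow_natCast, one_div, inv_pow]

end basic

section infl

variable {K L N : Type} [Field K] [NumberField K] [Field L] [NumberField L] [Field N]
  [NumberField N] [Algebra K L] [Algebra L N] [Algebra K N] [IsScalarTower K L N] [IsGalois K L]
  [IsGalois K N]

/-- **inflation** -/
theorem wTerm_infl {χ : (L ≃ₐ[K] L) → ℂ} (hχ : IsChar χ) (ω : ℕ → ℂ) :
    wTerm K N (fun g => χ (AlgEquiv.restrictNormalHom L g)) ω = wTerm K L χ ω := by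
  funext x
  have := x.1.isPrime
  rw [wTerm, wTerm, frobMean_infl (isChar_class hχ) x.1.ne_bot]

end infl

section ind

variable {K F L : Type} [Field K] [NumberField K] [Field F] [NumberField F] [Field L]
  [NumberField L] [Algebra K F] [Algebra F L] [Algebra K L] [IsScalarTower K F L] [IsGalois K L]
  [IsGalois F L]

/-- **induction** -/
theorem hasSum_wind {χ : (L ≃ₐ[F] L) → ℂ} {ω : ℕ → ℂ} {l : ℂ} (hl1 : HasSum (wTerm F L χ ω) l) :
    HasSum (wTerm K L (indChar K F L χ) ω) l := by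
  classical
  let e := Equiv.sigmaFiberEquiv (idx (F := F) K)
  have h1 : HasSum (wTerm F L χ ω ∘ e) l := (Equiv.hasSum_iff e).mpr hl1
  refine h1.sigma fun b => ?_
  -- the fibre
  obtain ⟨p, n⟩ := b
  have hpp := p.isPrime
  let D : Finset (Ideal (𝓞 F)) := (pr_finite F p.ne_bot).toFinset.filter
    fun q => q.inertiaDeg (𝓞 K) ∣ (n : ℕ)
  have hD : ∀ q ∈ D, q.IsPrime ∧ q.LiesOver p.asIdeal ∧ q ≠ ⊥ ∧ q.inertiaDeg (𝓞 K) ∣ (n : ℕ) := by
    intro q hq
    rw [Finset.mem_filter, Set.Finite.mem_toFinset] at hq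
    obtain ⟨⟨e1, e2⟩, e3⟩ := hq
    exact ⟨e1, e2, Ideal.ne_bot_of_liesOver_of_ne_bot p.ne_bot q, e3⟩
  let T : D ≃ {x // idx (F := F) K x = (p, n)} :=
    { toFun := fun q => ⟨(⟨q.1, (hD q.1 q.2).1, (hD q.1 q.2).2.2.1⟩,
        ⟨n / q.1.inertiaDeg (𝓞 K), by
          have := (hD q.1 q.2).1
          exact Nat.div_pos (Nat.le_of_dvd n.2 (hD q.1 q.2).2.2.2) (deg_pos q.1)⟩), by
          have h2 := (hD q.1 q.2).2.1
          refine Prod.ext ?_ ?_
          · apply HeightOneSpectrum.ext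
            exact (Ideal.over_def q.1 p.asIdeal).symm
          · apply PNat.eq
            exact Nat.mul_div_cancel' (hD q.1 q.2).2.2.2⟩
      invFun := fun x => ⟨x.1.1.asIdeal, by
          have hx1 := congrArg (fun y => y.1.asIdeal) x.2
          have hx2 := congrArg (fun y => (y.2 : ℕ)) x.2
          rw [Finset.mem_filter, Set.Finite.mem_toFinset]
          refine ⟨⟨x.1.1.isPrime, ⟨hx1.symm⟩⟩, ?_⟩
          exact ⟨x.1.2, hx2.symm⟩⟩
      left_inv := fun q => rfl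
      right_inv := fun x => by
          apply Subtype.ext
          refine Prod.ext rfl ?_
          apply PNat.eq
          have hx2 : x.1.1.asIdeal.inertiaDeg (𝓞 K) * (x.1.2 : ℕ) = n :=
            congrArg (fun y => (y.2 : ℕ)) x.2
          have := x.1.1.isPrime
          change (n : ℕ) / x.1.1.asIdeal.inertiaDeg (𝓞 K) = x.1.2
          rw [← hx2]
          exact Nat.mul_div_cancel_left _ (deg_pos _) }
  rw [← Equiv.hasSum_iff T]
  have h2 : wTerm K L (indChar K F L χ) ω (p, n)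
      = ∑ q : D, ((fun c => (wTerm F L χ ω ∘ e) ⟨(p, n), c⟩) ∘ T) q := by
    have h3 := frobMean_ind (K := K) (F := F) (L := L) (χ := χ) p.ne_bot (n := (n : ℕ)) n.pos
    change ω _ * Pool.Agent.K4H74.SC.frobMean K L (indChar K F L χ) p.asIdeal (n : ℕ) / _ = _
    rw [h3, ← Finset.sum_filter]
    change ω _ * (∑ q ∈ D, _) / _ = _
    rw [Finset.mul_sum, Finset.sum_div, ← Finset.sum_coe_sort]
    refine Finset.sum_congr rfl fun q _ => ?_
    obtain ⟨q, hq⟩ := q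
    obtain ⟨e1, e2, e3, e4⟩ := hD q hq
    change ω (absNorm p.asIdeal ^ (n : ℕ)) * ((q.inertiaDeg (𝓞 K) : ℂ)
      * Pool.Agent.K4H74.SC.frobMean F L χ q ((n : ℕ) / q.inertiaDeg (𝓞 K))) / (n : ℕ)
      = ω (absNorm q ^ ((n : ℕ) / q.inertiaDeg (𝓞 K)))
        * Pool.Agent.K4H74.SC.frobMean F L χ q ((n : ℕ) / q.inertiaDeg (𝓞 K))
        / ((((n : ℕ) / q.inertiaDeg (𝓞 K) : ℕ) : ℂ))
    obtain ⟨m, hm⟩ := e4
    have hd0 : q.inertiaDeg (𝓞 K) ≠ 0 := (deg_pos q).ne'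
    have hm' : (n : ℕ) / q.inertiaDeg (𝓞 K) = m := by
      rw [hm]; exact Nat.mul_div_cancel_left _ (deg_pos q)
    have hm0 : (m : ℂ) ≠ 0 := by
      intro h0
      have : m = 0 := by exact_mod_cast h0
      rw [this, mul_zero] at hm
      exact n.2.ne' hm
    rw [hm', hm]
    have h3 : absNorm q ^ m = absNorm p.asIdeal ^ (q.inertiaDeg (𝓞 K) * m) := by
      rw [← Ideal.absNorm_pow_inertiaDeg p.asIdeal q, ← pow_mul]
    rw [h3]
    push_cast
    have hd1 : (q.inertiaDeg (𝓞 K) : ℂ) ≠ 0 := by exact_mod_cast hd0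
    field_simp
  rw [h2]
  exact hasSum_fintype _

end ind

/-- the sums for all admissible weights as an inductive invariant -/
noncomputable def wInv : ArtinInvariant (Multiplicative ({ω : ℕ → ℂ // Adm ω} → ℂ)) where
  val K L _ _ _ _ _ _ χ := Multiplicative.ofAdd fun ω => ∑' x, wTerm K L χ ω.1 x
  val_add K L _ _ _ _ _ _ χ χ' h h' := by
    apply Multiplicative.toAdd.injective
    funext ω
    exact (hasSum_wadd (wTerm_summable χ ω.2).hasSum (wTerm_summable χ' ω.2).hasSum).tsum_eq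
  val_infl K L N _ _ _ _ _ _ _ _ _ _ _ _ χ h := by
    apply Multiplicative.toAdd.injective
    funext ω
    change ∑' x, wTerm K N _ ω.1 x = ∑' x, wTerm K L χ ω.1 x
    rw [wTerm_infl h]
  val_ind K F L _ _ _ _ _ _ _ _ _ _ _ _ χ h := by
    apply Multiplicative.toAdd.injective
    funext ω
    exact (hasSum_wind (K := K) (F := F) (L := L) (wTerm_summable χ ω.2).hasSum).tsum_eq

end Pool.Agent.J4.H58.DEL
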