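import Mathlib
import Pool.Agent.K4H34.AL.Comb2
import Pool.Agent.K4H34.ST.Main

/-!
# Inductive invariants: only one trivial character over fields which are not totally complex matters
-/

set_option autoImplicit false
set_option linter.unusedSectionVars false

namespace Pool.Agent.J4.H58.DEL

open NumberField NumberField.ComplexEmbedding Pool.Agent.R389 Pool.Agent.K4H74.ST
  Pool.Agent.K4H77.SL Pool.Agent.K4H34.ST

variable {M : Type} [CommGroup M] {A : ArtinInvariant M}

/-- trivial on the trivial characters of the totally complex fields -/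
def TrivTotC (A : ArtinInvariant M) : Prop :=
  ∀ (K : Type) [Field K] [NumberField K], IsTotallyComplex K → A.val K K (fun _ => 1) = 1

lemma val_triv (K L : Type) [Field K] [NumberField K] [Field L] [NumberField L] [Algebra K L]
    [IsGalois K L] : A.val K L (fun _ => 1) = A.val K K (fun _ => 1) := by
  have h := A.val_infl K K L (lc 1) (IsChar.lc 1)
  have h1 : (fun g => lc (1 : (K ≃ₐ[K] K) →* ℂˣ) (AlgEquiv.restrictNormalHom K g))
      = fun _ : L ≃ₐ[K] L => (1 : ℂ) := by
    funext g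
    simp [lc]
  have h2 : lc (1 : (K ≃ₐ[K] K) →* ℂˣ) = fun _ => 1 := by
    funext g
    simp [lc]
  rw [h1, h2] at h
  exact h

lemma ind_one_complex (hC : TrivTotC A) {L : Type} [Field L] [NumberField L] [IsGalois ℚ L]
    (V : Subgroup (L ≃ₐ[ℚ] L)) (hV : ∀ c ∈ CC ℚ L, c ∉ V) :
    ind V (fun _ => (1 : ℂ)) ∈ TT A (K := ℚ) (L := L) ⊥ := by
  have hfin : FiniteDimensional ℚ L := inferInstance
  have h1 : ind V (fun _ => (1 : ℂ)) = ind V (fun h => (((1 : V →* ℂˣ) h : ℂˣ) : ℂ)) := by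
    congr 1
  have h2 : ind V (fun h => (((1 : V →* ℂˣ) h : ℂˣ) : ℂ))
      = indChar ℚ (IntermediateField.fixedField V) L (lc 1) := ind_fixed V _
  have h3 : lc (1 : (L ≃ₐ[IntermediateField.fixedField V] L) →* ℂˣ) = fun _ => 1 := by
    funext g
    simp [lc]
  rw [h1, mem_TT_char A (IsChar.ind_lin V 1), Subgroup.mem_bot, h2,
    A.val_ind ℚ (IntermediateField.fixedField V) L (lc 1) (IsChar.lc 1), h3, val_triv]
  exact hC _ (fixed_complex V hV)

lemma cc_conj {L : Type} [Field L] [NumberField L] [IsGalois ℚ L] {c c' : L ≃ₐ[ℚ] L}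
    (hc : c ∈ CC ℚ L) (hc' : c' ∈ CC ℚ L) : ∃ σ : L ≃ₐ[ℚ] L, c' = σ * c * σ⁻¹ := by
  obtain ⟨φ, hφ⟩ := hc
  obtain ⟨φ', hφ'⟩ := hc'
  have hK : φ.comp (algebraMap ℚ L) = φ'.comp (algebraMap ℚ L) := Subsingleton.elim _ _
  obtain ⟨σ, hσ⟩ := ComplexEmbedding.exists_comp_symm_eq_of_comp_eq (k := ℚ) φ φ' hK
  have h4 := hφ.comp σ.symm
  have h5 : (φ.comp ((σ.symm : L ≃ₐ[ℚ] L) : L →+* L)) = φ' := hσ
  rw [h5] at h4
  have h6 := h4.ext hφ'
  refine ⟨σ, ?_⟩
  rw [← h6]
  change (σ⁻¹)⁻¹ * c * σ⁻¹ = _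
  rw [inv_inv]

/-- the number of the `x` with `x⁻¹ g x` in `H` -/
noncomputable def cnt {G : Type} [Group G] (H : Subgroup G) (g : G) : ℕ :=
  Nat.card {x : G // x⁻¹ * g * x ∈ H}

lemma cnt_zpowers {G : Type} [Group G] {H : Subgroup G} {a b : G}
    (h : Subgroup.zpowers a = Subgroup.zpowers b) : cnt H a = cnt H b := by
  have key : ∀ a b : G, Subgroup.zpowers a = Subgroup.zpowers b → ∀ x : G,
      x⁻¹ * a * x ∈ H → x⁻¹ * b * x ∈ H := by
    intro a b h x hx
    have h1 : b ∈ Subgroup.zpowers a := by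
      rw [h]
      exact Subgroup.mem_zpowers b
    obtain ⟨n, rfl⟩ := Subgroup.mem_zpowers_iff.mp h1
    have h2 : x⁻¹ * a ^ n * x = (x⁻¹ * a * x) ^ n := by
      have := conj_zpow (i := n) (a := x⁻¹) (b := a)
      rw [inv_inv] at this
      exact this.symm
    rw [h2]
    exact zpow_mem hx n
  unfold cnt
  exact Nat.card_congr (Equiv.subtypeEquivRight fun x => ⟨key a b h x, key b a h.symm x⟩)

lemma cnt_conj {G : Type} [Group G] {H : Subgroup G} (a y : G) :
    cnt H (y * a * y⁻¹) = cnt H a := by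
  unfold cnt
  refine Nat.card_congr ((Equiv.mulLeft y⁻¹).subtypeEquiv fun x => ?_)
  have : x⁻¹ * (y * a * y⁻¹) * x = (y⁻¹ * x)⁻¹ * a * (y⁻¹ * x) := by group
  rw [this]
  rfl

lemma ind_cnt {G : Type} [Group G] [Finite G] (H : Subgroup G) (g : G) :
    (Nat.card H : ℂ) * ind H (fun _ => (1 : ℂ)) g = cnt H g := by
  classical
  have : Fintype G := Fintype.ofFinite G
  have hc : (Nat.card H : ℂ) ≠ 0 := by exact_mod_cast Nat.card_pos.ne'
  rw [ind_eq, ← mul_assoc, mul_inv_cancel₀ hc, one_mul, cnt, Nat.card_eq_fintype_card,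
    Fintype.card_subtype]
  have h1 : ∀ x : G, ext H (fun _ => (1 : ℂ)) (x⁻¹ * g * x)
      = if x⁻¹ * g * x ∈ H then 1 else 0 := by
    intro x
    by_cases h : x⁻¹ * g * x ∈ H
    · rw [ext_mem H _ h, if_pos h]
    · rw [ext_not H _ h, if_neg h]
  rw [Finset.sum_congr rfl (fun x _ => h1 x), Finset.sum_boole]

/-- **The trivial characters.** An inductive invariant which is trivial on the trivial character
of `ℚ` and of all totally complex fields has values of finite order on the trivial characters of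
all number fields. -/
theorem triv_torsion (hQ : A.val ℚ ℚ (fun _ => 1) = 1) (hC : TrivTotC A) (K : Type) [Field K]
    [NumberField K] : IsOfFinOrder (A.val K K (fun _ => 1)) := by
  classical
  obtain ⟨L, i1, i2, i3, i4⟩ := exists_gal K
  have hgal : IsGalois K L := IsGalois.tower_top_of_isGalois ℚ K L
  obtain ⟨N, j1, j2, j3, j4, j5, j6, -, hN⟩ := exists_comm ℚ L
  have h0 : j3 = DivisionRing.toRatAlgebra := Subsingleton.elim _ _
  subst h0
  have hfinN : FiniteDimensional ℚ N := inferInstance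
  let π : (N ≃ₐ[ℚ] N) →* (L ≃ₐ[ℚ] L) := AlgEquiv.restrictNormalHom L
  -- the permutation character
  obtain ⟨H, e, he0⟩ := Pool.Agent.K4H74.SC.indChar_eq (K := ℚ) (F := K) (L := L) (fun _ => (1 : ℂ))
  have he : ∀ g, indChar ℚ K L (fun _ => (1 : ℂ)) g = ind H (fun _ => (1 : ℂ)) g := fun g => congrFun he0 g
  obtain ⟨φ₀⟩ : Nonempty (L →+* ℂ) := inferInstance
  have hreal : IsReal (φ₀.comp (algebraMap ℚ L)) := by
    ext x
    simp
  obtain ⟨c₀, hc₀⟩ := exists_conj (K := ℚ) (φ := φ₀) hreal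
  have hc₀' : c₀ ∈ CC ℚ L := ⟨φ₀, hc₀⟩
  let z : ℤ := (cnt H c₀ : ℤ)
  let f : (N ≃ₐ[ℚ] N) → ℂ := fun g => (cnt H (π g) : ℂ) - z
  have hcc : ∀ c ∈ CC ℚ L, cnt H c = cnt H c₀ := by
    intro c hc
    obtain ⟨σ, rfl⟩ := cc_conj hc₀' hc
    exact cnt_conj _ _
  have hf : f ∈ sat (TT A (K := ℚ) (L := N) ⊥) := by
    apply g1 (N ≃ₐ[ℚ] N) f
    · intro g x
      change (cnt H (π (x * g * x⁻¹)) : ℂ) - z = _
      rw [map_mul, map_mul, map_inv, cnt_conj]
    · intro g
      by_cases hg : ∃ c ∈ CC ℚ N, c ∈ Subgroup.zpowers g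
      · obtain ⟨c, hc, hcg⟩ := hg
        have h1 : gen g f = 0 := by
          funext x
          unfold gen
          split_ifs with hx
          · have h2 : c ∈ Subgroup.zpowers (x : N ≃ₐ[ℚ] N) := by rw [hx]; exact hcg
            obtain ⟨n, hn⟩ := Subgroup.mem_zpowers_iff.mp h2
            have h3 : (x : N ≃ₐ[ℚ] N) * c = c * x := by
              rw [← hn, ← zpow_one_add, add_comm, zpow_add_one]
            have h4 : π x = π c := by
              rcases hN c hc x h3 with h5 | h5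
              · have h6 : π c = 1 := by
                  change π x = 1 at h5
                  rw [← hn, map_zpow, h5, one_zpow]
                rw [h6]
                exact h5
              · exact h5
            change (cnt H (π x) : ℂ) - z = 0
            rw [h4, hcc _ (CC_res hc)]
            simp [z]
          · rfl
        rw [h1, ind_zero]
        exact zero_mem _
      · push Not at hg
        refine g2 (N ≃ₐ[ℚ] N) g _ f (fun _ => ((((cnt H (π g) : ℤ) - z : ℤ)) : ℂ)) ?_ ?_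
        · intro x hx
          have h1 : cnt H (π x) = cnt H (π g) := by
            apply cnt_zpowers
            have h2 := congrArg (Subgroup.map π) hx
            rwa [MonoidHom.map_zpowers, MonoidHom.map_zpowers] at h2
          change (cnt H (π x) : ℂ) - z = _
          rw [h1]
          push_cast
          rfl
        · intro V hV
          have h1 : ind V (fun _ => (((((cnt H (π g) : ℤ) - z : ℤ)) : ℂ)))
              = ((cnt H (π g) : ℤ) - z) • ind V (fun _ => (1 : ℂ)) := by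
            have h2 : (fun _ : V => (((((cnt H (π g) : ℤ) - z : ℤ)) : ℂ)))
                = ((cnt H (π g) : ℤ) - z) • (fun _ : V => (1 : ℂ)) := by
              funext v
              rw [Pi.smul_apply, zsmul_eq_mul, mul_one]
            rw [h2]
            exact map_zsmul (indHom V) _ _
          rw [h1]
          exact zsmul_mem (ind_one_complex hC V fun c hc hcV => hg c hc (hV hcV)) _
  -- the values
  obtain ⟨n, hn, v, hv, h6⟩ := hf
  rw [Subgroup.mem_bot] at hv
  subst hv
  have hone : IsChar (fun _ : L ≃ₐ[K] L => (1 : ℂ)) := by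
    have h := IsChar.lc (1 : (L ≃ₐ[K] L) →* ℂˣ)
    have h2 : lc (1 : (L ≃ₐ[K] L) →* ℂˣ) = fun _ => 1 := by
      funext g
      simp [lc]
    rwa [h2] at h
  have honeN : IsChar (fun _ : N ≃ₐ[ℚ] N => (1 : ℂ)) := by
    have h := IsChar.lc (1 : (N ≃ₐ[ℚ] N) →* ℂˣ)
    have h2 : lc (1 : (N ≃ₐ[ℚ] N) →* ℂˣ) = fun _ => 1 := by
      funext g
      simp [lc]
    rwa [h2] at h
  have hP : IsChar (indChar ℚ K L (fun _ => (1 : ℂ))) :=
    Pool.Agent.K4H74.SC.isChar_indChar hone
  have hPN : IsChar (fun g : N ≃ₐ[ℚ] N => indChar ℚ K L (fun _ => (1 : ℂ)) (π g)) :=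
    Pool.Agent.K4H77.SL.IsChar.comp hP _
  have e1 : A.val ℚ N (fun g => indChar ℚ K L (fun _ => (1 : ℂ)) (π g))
      = A.val K K (fun _ => 1) := by
    rw [A.val_infl ℚ L N _ hP, A.val_ind ℚ K L _ hone, val_triv]
  have e2 : A.val ℚ N (fun _ => (1 : ℂ)) = 1 := by rw [val_triv, hQ]
  have h7 := Val.nsmul A (Val.of_char A hPN) (Nat.card H)
  have h8 := (Val.zsmul A (Val.of_char A honeN) z).neg A
  have h9 := Val.nsmul A (h7.add A h8) n
  have h10 : (n • (Nat.card H • (fun g => indChar ℚ K L (fun _ => (1 : ℂ)) (π g))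
      + -(z • fun _ => (1 : ℂ))) : (N ≃ₐ[ℚ] N) → ℂ) = n • f := by
    congr 1
    funext g
    change Nat.card H • indChar ℚ K L (fun _ => (1 : ℂ)) (π g) + -(z • (1 : ℂ))
      = (cnt H (π g) : ℂ) - z
    rw [he, nsmul_eq_mul, ind_cnt, zsmul_eq_mul, mul_one, sub_eq_add_neg]
  rw [h10] at h9
  have h11 := h9.unique A h6
  rw [e1, e2, one_zpow, inv_one, mul_one, ← pow_mul] at h11
  exact isOfFinOrder_iff_pow_eq_one.mpr ⟨Nat.card H * n, Nat.mul_pos Nat.card_pos hn, h11⟩

end Pool.Agent.J4.H58.DEL
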