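import Mathlib
import Pool.Agent.J4.H58.DEL.TrivQ

/-!
# Relations between the values of inductive invariants: the small set of basic characters
-/

set_option autoImplicit false
set_option linter.unusedSectionVars false

namespace Pool.Agent.J4.H58.DEL

open NumberField Pool.Agent.K4H74 Pool.Agent.K4H74.ST Pool.Agent.K4H74.SK Pool.Agent.K4H34.AL

/-- An inductive invariant of a character to a suitable power is a product of powers of its values
on the family: the trivial character of `ℚ`, totally odd linear characters of totally real fields,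
unramified characters of totally complex fields. -/
theorem power_form3 {M : Type} [CommGroup M] (A : ArtinInvariant M) (T : Pair → Prop) {m : ℕ}
    (hm : m ≠ 0)
    (h1 : T ⟨⟨ℚ, ℚ⟩, fun _ => 1⟩)
    (h2 : ∀ E : Ext, IsTotallyReal E.K → ∀ ψ : G E →* ℂˣ, (∀ t : G E, IsCC t → ψ t = -1) →
      T ⟨E, lin ψ⟩)
    (h3 : ∀ E : Ext, IsTotallyComplex E.K →
      (∀ P : Ideal (𝓞 E.L), P.IsMaximal → (∀ g ∈ K4H77.SL.inertia E.K P, g = 1) ∧
        ((m : 𝓞 E.L) ∈ P → ∀ g ∈ K4H77.SL.decomp E.K P, g = 1)) →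
      ∀ ψ : G E →* ℂˣ, Function.Injective ψ → T ⟨E, lin ψ⟩)
    {E : Ext} {χ : G E → ℂ} (hχ : IsChr χ) :
    ∃ n : ℕ, 0 < n ∧ ∃ (r : ℕ) (x : Fin r → Pair) (k : Fin r → ℤ), (∀ i, T (x i)) ∧
      pval A ⟨E, χ⟩ ^ n = ∏ i, pval A (x i) ^ k i := by
  let P : Subgroup M := Subgroup.closure {y : M | ∃ x : Pair, T x ∧ y = pval A x}
  let B : ArtinInvariant (M ⧸ P) := mapInv (QuotientGroup.mk' P) A
  have hB : ∀ x : Pair, T x → B.val x.1.K x.1.L x.2 = 1 := by
    intro x hx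
    exact (QuotientGroup.eq_one_iff (N := P) _).mpr (Subgroup.subset_closure ⟨x, hx, rfl⟩)
  -- the quotient by the torsion
  let C : ArtinInvariant ((M ⧸ P) ⧸ CommGroup.torsion (M ⧸ P)) :=
    mapInv (QuotientGroup.mk' (CommGroup.torsion (M ⧸ P))) B
  have hC : ∀ x : Pair, IsOfFinOrder (B.val x.1.K x.1.L x.2) → C.val x.1.K x.1.L x.2 = 1 := by
    intro x hx
    exact (QuotientGroup.eq_one_iff (N := CommGroup.torsion (M ⧸ P)) _).mpr hx
  have hCT : ∀ x : Pair, T x → C.val x.1.K x.1.L x.2 = 1 := by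
    intro x hx
    refine hC x ?_
    rw [hB x hx]
    exact IsOfFinOrder.one
  have hBQ : B.val ℚ ℚ (fun _ => 1) = 1 := hB _ h1
  have hBC : TrivTotC B := by
    intro K _ _ hK
    have h4 : lin (1 : G ⟨K, K⟩ →* ℂˣ) = fun _ => 1 := by
      funext g
      simp [lin]
    have h5 := hB _ (h3 ⟨K, K⟩ hK (fun P hP => ⟨fun g _ => Subsingleton.elim (α := K ≃ₐ[K] K) _ _,
      fun _ g _ => Subsingleton.elim (α := K ≃ₐ[K] K) _ _⟩) 1
        (fun a b _ => Subsingleton.elim (α := K ≃ₐ[K] K) a b))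
    rw [h4] at h5
    exact h5
  have i1 : TrivOne C := by
    intro K _ _
    exact hC ⟨⟨K, K⟩, fun _ => 1⟩ (triv_torsion hBQ hBC K)
  have i2 : K4H77.SL.TrivSplit C m := by
    apply K4H77.SL.trivSplit_of_lin
    intro K L _ _ _ _ _ _ hK hin hde ψ hψ
    exact hCT _ (h3 ⟨K, L⟩ hK (fun P hP => ⟨hin P hP, fun hm => hde P hP hm⟩) ψ hψ)
  have i3 : TrivOdd C := by
    intro K L _ _ _ _ _ _ hK ψ hψ
    refine hCT _ (h2 ⟨K, L⟩ hK ψ ?_)
    rintro t ⟨φ, hφ⟩
    refine hψ φ t ?_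
    ext x
    exact (hφ x).symm
  have h4 := Pool.Agent.K4H34.ST.main hm i1 i3 i2 E.K E.L (isChr_iff.mp hχ)
  obtain ⟨n, hn, h5⟩ := isOfFinOrder_iff_pow_eq_one.mp h4
  have h6 : C.val E.K E.L χ
      = QuotientGroup.mk' (CommGroup.torsion (M ⧸ P)) (B.val E.K E.L χ) := rfl
  rw [h6, ← map_pow] at h5
  have h7 : IsOfFinOrder (B.val E.K E.L χ ^ n) :=
    (QuotientGroup.eq_one_iff (N := CommGroup.torsion (M ⧸ P)) _).mp h5
  obtain ⟨n', hn', h8⟩ := isOfFinOrder_iff_pow_eq_one.mp h7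
  rw [← pow_mul] at h8
  refine ⟨n * n', Nat.mul_pos hn hn', closure_form A T ?_⟩
  have h9 : B.val E.K E.L χ = QuotientGroup.mk' P (pval A ⟨E, χ⟩) := rfl
  rw [h9, ← map_pow] at h8
  exact (QuotientGroup.eq_one_iff _).mp h8

end Pool.Agent.J4.H58.DEL
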